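import Pool.Agent.P8H33.QC.Stm2

/-! Project QC of helper33, package KUM (helper4): Kummer theory of exponent two. -/

set_option autoImplicit false

namespace Pool.Agent.P8H4.QC

open IntermediateField
open Pool.Agent.P8H33.QC

/-- the sign -/
def ep (C : Type) [Field C] (x : ZMod 2) : C := if x = 0 then 1 else -1

theorem ep_add (C : Type) [Field C] (x y : ZMod 2) : ep C (x + y) = ep C x * ep C y := by
  have h : ∀ z : ZMod 2, z = 0 ∨ z = 1 := by decide
  have h11 : (1 : ZMod 2) + 1 = 0 := by decide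
  unfold ep
  rcases h x with rfl | rfl <;> rcases h y with rfl | rfl
  · simp
  · simp
  · simp
  · rw [h11, if_pos rfl, if_neg one_ne_zero]
    ring

theorem ep_sum (C : Type) [Field C] {ι : Type} (s : Finset ι) (f : ι → ZMod 2) :
    ∏ i ∈ s, ep C (f i) = ep C (∑ i ∈ s, f i) := by
  classical
  induction s using Finset.induction_on with
  | empty => simp [ep]
  | insert i s hi ih => rw [Finset.prod_insert hi, Finset.sum_insert hi, ep_add, ih]

theorem kum_gen {C : Type} [Field C] {K : Type} [Field K] [Algebra K C] [IsGalois K C]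
    (h2 : (2 : C) ≠ 0) {n : ℕ} (r : Fin n → C) (hr : ∀ i, ∃ y : K, algebraMap K C y = r i ^ 2)
    (hS : ∀ S : Finset (Fin n), S.Nonempty → ¬ ∃ y : K, algebraMap K C y = ∏ i ∈ S, r i) (i : Fin n) :
    ∃ σ : C ≃ₐ[K] C, σ (r i) = -r i ∧ ∀ j, j ≠ i → σ (r j) = r j := by
  classical
  have hr0 : ∀ i, r i ≠ 0 := by
    intro i h0
    apply hS {i} ⟨i, Finset.mem_singleton_self i⟩
    refine ⟨0, ?_⟩
    rw [Finset.prod_singleton, h0, map_zero]
  have hne : ∀ i, r i ≠ -r i := by
    intro i h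
    have h1 : 2 * r i = 0 := by linear_combination h
    rcases mul_eq_zero.1 h1 with h3 | h3
    · exact h2 h3
    · exact hr0 i h3
  have hpm : ∀ (σ : C ≃ₐ[K] C) i, σ (r i) = r i ∨ σ (r i) = -r i := by
    intro σ i
    obtain ⟨y, hy⟩ := hr i
    have h1 : σ (r i) ^ 2 = r i ^ 2 := by
      rw [← map_pow, ← hy, AlgEquiv.commutes]
    exact sq_eq_sq_iff_eq_or_eq_neg.1 h1
  obtain ⟨c, hc⟩ : ∃ c : (C ≃ₐ[K] C) → Fin n → ZMod 2, ∀ σ i, c σ i = if σ (r i) = r i then 0 else 1 :=
    ⟨_, fun _ _ => rfl⟩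
  have hcr : ∀ σ i, σ (r i) = ep C (c σ i) * r i := by
    intro σ i
    rw [hc]
    unfold ep
    split_ifs with h1 h3 h3
    · rw [one_mul, h1]
    · exact absurd rfl h3
    · exact absurd h3 one_ne_zero
    · rw [(hpm σ i).resolve_left h1]
      ring
  have hep : ∀ x y : ZMod 2, ∀ i, ep C x * r i = ep C y * r i → x = y := by
    intro x y i h
    have h1 := mul_right_cancel₀ (hr0 i) h
    have h3 : (1 : C) ≠ -1 := fun h4 => h2 (by linear_combination h4)
    have h5 : ∀ z : ZMod 2, z = 0 ∨ z = 1 := by decide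
    unfold ep at h1
    rcases h5 x with rfl | rfl <;> rcases h5 y with rfl | rfl
    · rfl
    · rw [if_pos rfl, if_neg one_ne_zero] at h1
      exact absurd h1 h3
    · rw [if_pos rfl, if_neg one_ne_zero] at h1
      exact absurd h1.symm h3
    · rfl
  have hmul : ∀ σ τ, c (σ * τ) = c σ + c τ := by
    intro σ τ
    funext i
    apply hep _ _ i
    rw [← hcr, AlgEquiv.mul_apply, hcr τ i, map_mul, hcr σ i, Pi.add_apply, ep_add]
    have h4 : σ (ep C (c τ i)) = ep C (c τ i) := by
      unfold ep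
      split_ifs
      · exact map_one σ
      · rw [map_neg, map_one]
    rw [h4]
    ring
  -- the range of `c`
  let W : AddSubgroup (Fin n → ZMod 2) :=
    { carrier := Set.range c
      zero_mem' := ⟨1, by
        have h1 := hmul 1 1
        rw [mul_one] at h1
        exact left_eq_add.1 h1⟩
      add_mem' := by
        rintro _ _ ⟨σ, rfl⟩ ⟨τ, rfl⟩
        exact ⟨σ * τ, hmul σ τ⟩
      neg_mem' := by
        rintro _ ⟨σ, rfl⟩
        refine ⟨σ, ?_⟩
        funext i
        rw [Pi.neg_apply, CharTwo.neg_eq] }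
  have htop : AddSubgroup.toZModSubmodule 2 W = ⊤ := by
    by_contra hlt
    obtain ⟨f, hf0, hf⟩ := Submodule.exists_le_ker_of_lt_top _ (lt_top_iff_ne_top.2 hlt)
    obtain ⟨S, hSd⟩ : ∃ S : Finset (Fin n), S = Finset.univ.filter fun i => f (Pi.single i 1) = 1 :=
      ⟨_, rfl⟩
    have hfv : ∀ v : Fin n → ZMod 2, f v = ∑ i ∈ S, v i := by
      intro v
      have h1 : v = ∑ i, v i • (Pi.single i 1 : Fin n → ZMod 2) := by
        funext j
        simp [Finset.sum_apply, Pi.single_apply]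
      conv_lhs => rw [h1]
      rw [map_sum, hSd, Finset.sum_filter]
      refine Finset.sum_congr rfl fun i _ => ?_
      rw [map_smul, smul_eq_mul]
      split_ifs with h3
      · rw [h3, mul_one]
      · have h4 : ∀ z : ZMod 2, z ≠ 1 → z = 0 := by decide
        rw [h4 _ h3, mul_zero]
    have hSne : S.Nonempty := by
      rw [Finset.nonempty_iff_ne_empty]
      intro h0
      apply hf0
      apply LinearMap.ext
      intro v
      rw [hfv, h0]
      rfl
    apply hS S hSne
    have hfix : ∀ σ : C ≃ₐ[K] C, σ (∏ i ∈ S, r i) = ∏ i ∈ S, r i := by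
      intro σ
      rw [map_prod, Finset.prod_congr rfl fun i _ => hcr σ i, Finset.prod_mul_distrib, ep_sum]
      have h1 : c σ ∈ AddSubgroup.toZModSubmodule 2 W := ⟨σ, rfl⟩
      have h3 := hf h1
      rw [LinearMap.mem_ker, hfv] at h3
      rw [h3]
      simp [ep]
    have h5 := (InfiniteGalois.mem_bot_iff_fixed (k := K) (∏ i ∈ S, r i)).2 hfix
    rw [IntermediateField.mem_bot] at h5
    exact h5
  have hmem : (Pi.single i 1 : Fin n → ZMod 2) ∈ AddSubgroup.toZModSubmodule 2 W := by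
    rw [htop]
    trivial
  obtain ⟨σ, hσ⟩ := hmem
  refine ⟨σ, ?_, fun j hj => ?_⟩
  · rw [hcr, hσ, Pi.single_eq_same]
    unfold ep
    rw [if_neg one_ne_zero]
    ring
  · rw [hcr, hσ, Pi.single_eq_of_ne hj]
    unfold ep
    rw [if_pos rfl, one_mul]

theorem kum : S_KUM := by
  intro p _ K n r hr hS i
  have hgal : IsGalois ℚ_[p] (PadicAlgCl p) := IsAlgClosure.isGalois ℚ_[p] (PadicAlgCl p)
  obtain ⟨σ, h1, h3⟩ := kum_gen (K := K) (C := PadicAlgCl p) two_ne_zero r
    (fun i => ⟨⟨r i ^ 2, hr i⟩, rfl⟩) (fun S hSn h => by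
      obtain ⟨y, hy⟩ := h
      apply hS S hSn
      rw [← hy]
      exact y.2) i
  refine ⟨σ.restrictScalars ℚ_[p], fun y hy => ?_, h1, h3⟩
  exact σ.commutes (⟨y, hy⟩ : K)

end Pool.Agent.P8H4.QC
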